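import Pool.Agent.Work.MP_0f2eae_al.Hedge.Main

open Pool.Agent.Work.MP_0f2eae_al.Hedge

/-- For every admissible pair `(g, n)` there are pure classes `t` and `x` in `𝕋_{g,n}` such that
`x` lies in `TPlus g n` while `t x t⁻¹` does not even lie in the larger group `THat g n`. In
particular `TPlus g n` is never a normal subgroup. -/
theorem Pool.Agent.Results.MP_0f2eae_al.NeverNormal.result (g n : ℕ) (h : 3 ≤ 2 * g + n)
    (h' : (g, n) ≠ (0, 3)) :
    ∃ t x : Tgn g n, PureClass t ∧ PureClass x ∧ x ∈ TPlus g n ∧ t * x * t⁻¹ ∉ THat g n :=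
  goal g n h h'
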